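import Pool.Agent.H72.ONE1.Nfr
import Pool.Agent.H72.ONE1.Evt
import Pool.Agent.H53.JM.Nf
import Pool.Agent.H53.JM.Tilt
import Pool.Agent.H90.STAT.FulC

/-!
# The row of the target over the context, in a class

`NfH`: the hypotheses about the heights and the records. `nf_cls`: the row of the height of the
target over the context, for all large events of the members of a class.
-/

set_option autoImplicit false

namespace Pool.ONE55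

open Finset Real
open Pool.Agent.H49.Ent Pool.Agent.H32.Dense Pool.STK Pool.KA Pool.KSAT Pool.K2S Pool.PB Pool.GEN
open Pool.LPX Pool.ONE17 Pool.ONE72 Pool.S6C
open Pool.ALL (RateOf)
open Pool.GEN.N83 (oth)
open Pool.STAT (ExW)

variable {m J : ℕ}

/-- **The heights and the records**: `wA` is the window of the exactness. -/
structure NfH (F : Fam m J) (B : F.Ω → Prop) (y u v t : Fin m) {𝒵 𝒱 : Type} (z : F.Ω → 𝒵)
    (zv : F.Ω → 𝒱) (hu hv hn gu gv gn : F.Ω → ℝ) (D C : ℝ)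
    (w X Lu Lv Ln mm M wv wA e ℓu Lu' su ℓv Lv' sv ℓn Ln' sn : ℕ) : Prop where
  D0 : 0 ≤ D
  tri : Tri F B y u v t z hu hv hn D (w + Ln + M)
  zZ : ∀ ω ω', B ω → B ω' → z ω = z ω' → F.Z ω = F.Z ω'
  wX : w + X ≤ J
  mX : mm ≤ X
  MX : M ≤ X
  uJ : w + Lu + mm ≤ J
  vJ : w + Lv + mm ≤ J
  nJ : w + Ln + M ≤ J
  lu : Lin F B w hu gu
  lv : Lin F B w hv gv
  ln : Lin F B w hn gn
  bu : ∀ ω, B ω → |gu ω| * 2 ^ Lu ≤ 1
  bv : ∀ ω, B ω → |gv ω| * 2 ^ Lv ≤ 1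
  bn : ∀ ω, B ω → |gn ω| * 2 ^ Ln ≤ 1
  wA1 : wv ≤ wA
  wA2 : wA ≤ J
  zl : ∃ z' : LnT F → 𝒵, ∀ ω, B ω → z ω = z' (slam F w ω)
  zvl : ∃ (f : PtT F → 𝒱) (g' : LnT F → 𝒱), ∀ ω, B ω → zv ω = f (ptr F J ω) ∧
    zv ω = g' (slam F wv ω)
  zvz : ∀ ω ω', B ω → B ω' → zv ω = zv ω' → z ω = z ω' ∧ F.X wv ω y = F.X wv ω' y
  wvm : wv ≤ w + mm
  ru : Rp F B y hu gu zv ℓu Lu' su C
  rv : Rp F B y hv gv zv ℓv Lv' sv C
  rn : Rp F B y hn gn zv ℓn Ln' sn C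
  u1 : 2 * C * 2 ^ (w + Lu + mm) ≤ 2 ^ (ℓu + e)
  u2 : w + Lu + mm ≤ su + (w + mm) + e
  v1 : 2 * C * 2 ^ (w + Lv + mm) ≤ 2 ^ (ℓv + e)
  v2 : w + Lv + mm ≤ sv + (w + mm) + e
  n1 : 2 * C * 2 ^ (w + Ln + M) ≤ 2 ^ (ℓn + e)
  n2 : w + Ln + M ≤ sn + (w + mm) + e

/-- The whole time given the line with any window. -/
theorem time_all {S : PCl m} {C₀ : ℝ} (htm : TmC S C₀) {ψ : ℝ} (hψ : 0 < ψ) :
    Bas S (fun J F A => 0 < Pe F.p A ∧ ∀ w ≤ J, ((J : ℝ) - w) * Real.log 2 - ψ * J ≤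
      CH (Pool.Agent.H49.Ent.cond F.p A True) F.W (slam F w)) := by
  refine (Pool.GRW.tmc_bas htm hψ).mono 0 fun J _ F A hh => ⟨hh.1, fun w hw => ?_⟩
  have hq := isLaw_cond F.isLaw hh.1
  have k1 := Pool.Agent.H25.M5.time_full hh.2 hq hw le_rfl
  have h4 : F.T1 J = F.T := by
    funext ω
    unfold Fam.T1
    rw [Nat.sub_self, pow_zero, Nat.div_one]
  rw [h4, Nat.cast_sub hw] at k1
  refine k1.trans (CH_mono_left hq.nonneg fun ω ω' _ _ e => ?_)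
  exact congrArg Prod.fst (Prod.mk.inj e).1

/-- The other coordinates. -/
theorem ch_oth {F : Fam m J} {p : F.Ω → ℝ} (hp : IsLaw p) {y u v t : Fin m} (hy : y ≠ t)
    (hu : u ≠ t) (hv : v ≠ t) (hc : ∀ j, j ≠ t → j = y ∨ j = u ∨ j = v) {α : Type} (X : F.Ω → α) :
    CH p X (fun ω => ((F.X J ω y, (F.X J ω u, F.X J ω v)), F.W ω)) =
      CH p X (fun ω => oth t J F (ptr F J ω)) := by
  refine CH_congr hp.nonneg (fun ω ω' _ _ h => (Prod.mk.inj h).1)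
    (fun ω ω' _ _ h => (Prod.mk.inj h).1) (fun ω ω' _ _ h => ?_) (fun ω ω' _ _ h => ?_)
  · simp only [Prod.mk.injEq] at h
    obtain ⟨⟨h1, h2, h3⟩, h4⟩ := h
    unfold oth ptr
    refine Prod.ext (funext fun j => ?_) h4
    change Function.update (F.X J ω) t 0 j = Function.update (F.X J ω') t 0 j
    by_cases hj : j = t
    · rw [hj, Function.update_self, Function.update_self]
    · rw [Function.update_of_ne hj, Function.update_of_ne hj]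
      rcases hc j hj with rfl | rfl | rfl
      · exact h1
      · exact h2
      · exact h3
  · have h0 : (Function.update (F.X J ω) t 0, F.W ω) = (Function.update (F.X J ω') t 0, F.W ω') := h
    obtain ⟨h1, h2⟩ := Prod.mk.inj h0
    have h3 : ∀ j, j ≠ t → F.X J ω j = F.X J ω' j := fun j hj => by
      have h4 := congrFun h1 j
      rwa [Function.update_of_ne hj, Function.update_of_ne hj] at h4
    exact Prod.ext (Prod.ext (h3 y hy) (Prod.ext (h3 u hu) (h3 v hv))) h2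

/-- A constant. -/
theorem log5_le : 6 * Real.log 5 ≤ 14 * Real.log 2 := by
  have h1 : Real.log ((5 : ℝ) ^ 6) ≤ Real.log ((2 : ℝ) ^ 14) :=
    Real.log_le_log (by positivity) (by norm_num)
  rw [Real.log_pow, Real.log_pow] at h1
  push_cast at h1
  exact h1

/-- **The row over the context, one law.** -/
theorem nf_law {F : Fam m J} {p : F.Ω → ℝ} (hp : IsLaw p) {B : F.Ω → Prop}
    (hpB : ∀ ω, 0 < p ω → B ω) {y u v t : Fin m} (hy : y ≠ t) (hut : u ≠ t) (hvt : v ≠ t)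
    (hc : ∀ j, j ≠ t → j = y ∨ j = u ∨ j = v) {𝒵 𝒱 : Type} {z : F.Ω → 𝒵}
    {zv : F.Ω → 𝒱} {hu hv hn gu gv gn : F.Ω → ℝ} {D C : ℝ}
    {w X Lu Lv Ln mm M wv wA e ℓu Lu' su ℓv Lv' sv ℓn Ln' sn : ℕ}
    (H : NfH F B y u v t z zv hu hv hn gu gv gn D C w X Lu Lv Ln mm M wv wA e ℓu Lu' su
      ℓv Lv' sv ℓn Ln' sn) {i : ℕ} (hi : i ≤ M) {Ex ψ h r₀ r₁ : ℝ}
    (hE : Ex ≤ CH p (fun ω (i : Fin 3) => F.X J ω (![y, u, v] i)) (fun ω => (zv ω, F.W ω)))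
    (hT : ((J : ℝ) - (w + X : ℕ)) * Real.log 2 - ψ ≤ CH p F.W (slam F (w + X)))
    (hr₁ : CH p (fun ω => F.X (w + Ln + M) ω t) (fun ω => oth t J F (ptr F J ω)) ≤ r₁ + h)
    (hr₀ : r₀ - h ≤ CH p (fun ω => F.X (w + Ln + i) ω t) (fun ω => oth t J F (ptr F J ω))) :
    CH p (fun ω => ⌊(2 : ℝ) ^ (w + Ln + M) * hn ω⌋)
      (fun ω => (⌊(2 : ℝ) ^ (w + Ln + i) * hn ω⌋,
        ctxK F y z hu hv w X (w + Lu) (w + Lv) mm ω)) ≤
      (r₁ - r₀) + ((((w + mm : ℕ) : ℝ) - wv) + ((J : ℝ) - (w + mm : ℕ)) +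
        ((J : ℝ) - (w + Lu + mm : ℕ)) + ((J : ℝ) - (w + Lv + mm : ℕ)) + 3 * e + 30) * Real.log 2 -
        Ex + 4 * Real.log (2 * D + 5) + (2 * h + ψ) := by
  have h0 := hp.nonneg
  obtain ⟨z', hz'⟩ := H.zl
  have hz : Det p (slam F (w + X)) z := fun ω ω' a b e1 => by
    rw [hz' ω (hpB ω a), hz' ω' (hpB ω' b), slam_win (Nat.le_add_right w X) H.wX e1]
  have hzv : Det p zv z := fun ω ω' a b e1 => (H.zvz ω ω' (hpB ω a) (hpB ω' b) e1).1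
  have hb : ∀ {g : F.Ω → ℝ} {L : ℕ}, (∀ ω, B ω → |g ω| * 2 ^ L ≤ 1) →
      ∀ ω, B ω → |g ω| * 2 ^ (w + L) ≤ 2 ^ w := by
    intro g L hg ω hω
    have h1 := hg ω hω
    rw [pow_add]
    calc |g ω| * (2 ^ w * 2 ^ L) = |g ω| * 2 ^ L * 2 ^ w := by ring
      _ ≤ 1 * 2 ^ w := mul_le_mul_of_nonneg_right h1 (by positivity)
      _ = 2 ^ w := one_mul _
  obtain ⟨K, hK⟩ : ∃ K : F.Ω → ℤ × (𝒱 × (ℕ × F.ζ)), K = fun ω =>
    (F.X (w + mm) ω y, (zv ω, F.W ω)) := ⟨_, rfl⟩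
  have dz : Det p K zv := fun ω ω' _ _ e1 => by
    rw [hK] at e1
    exact (Prod.mk.inj (Prod.mk.inj e1).2).1
  have dt : Det p K F.T := fun ω ω' _ _ e1 => by
    rw [hK] at e1
    exact congrArg Prod.fst (Prod.mk.inj (Prod.mk.inj e1).2).2
  have dy : Det p K (fun ω => F.X (w + mm) ω y) := fun ω ω' _ _ e1 => by
    rw [hK] at e1
    exact (Prod.mk.inj e1).1
  have a1 := H.ru.few_h hp hpB dz dt dy H.u1 H.u2
  have a2 := H.rv.few_h hp hpB dz dt dy H.v1 H.v2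
  have a3 := H.rn.few_h hp hpB dz dt dy H.n1 H.n2
  rw [hK] at a1 a2 a3
  have a4 := few_y hp y H.wvm (w := fun ω => (zv ω, F.W ω)) (fun ω ω' a b e1 =>
    (H.zvz ω ω' (hpB ω a) (hpB ω' b) (Prod.mk.inj e1).1).2)
  have a5 : Ex ≤ CH p (fun ω => (F.X J ω y, (F.X J ω u, F.X J ω v)))
      (fun ω => (zv ω, F.W ω)) := by
    refine hE.trans (CH_mono_left h0 fun ω ω' _ _ e1 => ?_)
    simp only [Prod.mk.injEq] at e1
    obtain ⟨⟨f1, f2, f3⟩, -⟩ := e1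
    funext i
    fin_cases i
    · exact f1
    · exact f2
    · exact f3
  rw [← ch_oth hp hy hut hvt hc] at hr₁ hr₀
  have k := nf_fam hp hpB H.D0 H.tri H.zZ (ℓu := w + Lu) (ℓv := w + Lv) (ℓn := w + Ln)
    (n₀ := w + Ln + i) H.wX H.mX H.MX H.uJ H.vJ le_rfl (by omega) hz H.lu H.lv H.ln (hb H.bu)
    (hb H.bv) (hb H.bn) hzv a5 a1 a2 a3 a4 hT (row := r₁ - r₀ + 2 * h) (by linarith)
  have k5 := log5_le
  have k6 : 0 < Real.log 2 := Real.log_pos one_lt_two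
  refine k.trans ?_
  push_cast
  linarith

/-- **The row of the height of the target over the context**, for all large events. -/
theorem nf_cls {S : PCl m} {C₀ : ℝ} (htm : TmC S C₀) {y u v t : Fin m} (hy : y ≠ t) (hut : u ≠ t)
    (hvt : v ≠ t) (hc : ∀ j, j ≠ t → j = y ∨ j = u ∨ j = v) {r : ℝ → ℝ} (hr : RateOf S t r)
    {av E κ₀ ϖ η : ℝ} (hκ₀ : 0 < κ₀) (hϖ : 0 < ϖ) (hη : 0 < η)
    (hE : Bas S (fun J F A => ExW F A ![y, u, v] ⌊av * J⌋₊ (E * Real.log 2 * J))) :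
    Bas S (fun J F A => ∀ B : F.Ω → Prop, Sub B A → κ₀ * Pe F.p A ≤ Pe F.p B →
      ∀ (𝒵 𝒱 : Type) (z : F.Ω → 𝒵) (zv : F.Ω → 𝒱) (hu hv hn gu gv gn : F.Ω → ℝ) (D C : ℝ)
      (w X Lu Lv Ln mm M wv e ℓu Lu' su ℓv Lv' sv ℓn Ln' sn : ℕ),
      NfH F B y u v t z zv hu hv hn gu gv gn D C w X Lu Lv Ln mm M wv ⌊av * J⌋₊ e ℓu Lu' su
        ℓv Lv' sv ℓn Ln' sn →
      ∀ i ≤ M, ∀ G : F.Ω → Prop, ϖ ≤ Pe (Pool.Agent.H49.Ent.cond F.p B True) G →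
      CH (Pool.Agent.H49.Ent.cond (Pool.Agent.H49.Ent.cond F.p B True) G True)
        (fun ω => ⌊(2 : ℝ) ^ (w + Ln + M) * hn ω⌋)
        (fun ω => (⌊(2 : ℝ) ^ (w + Ln + i) * hn ω⌋,
          ctxK F y z hu hv w X (w + Lu) (w + Lv) mm ω)) ≤
        (r (((w + Ln + M : ℕ) : ℝ) / J) - r (((w + Ln + i : ℕ) : ℝ) / J)) * Real.log 2 * J +
        ((((w + mm : ℕ) : ℝ) - wv) + ((J : ℝ) - (w + mm : ℕ)) +
          ((J : ℝ) - (w + Lu + mm : ℕ)) + ((J : ℝ) - (w + Lv + mm : ℕ)) - E * J + 3 * e + 30) *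
          Real.log 2 + 4 * Real.log (2 * D + 5) + η * J) := by
  have hpos : Bas S (fun _ F A => 0 < Pe F.p A) :=
    (time_all htm (ψ := 1) one_pos).mono 0 fun _ _ _ _ h => h.1
  have k1 := (((time_all htm (ψ := η / 2) (by positivity)).and
    (Pool.JPN.rate_unif hr hpos (h := η / 4) (by positivity))).and hE)
  have k2 := Pool.JPR.bas_big k1 (κ := κ₀ * ϖ) (by positivity)
  refine (hpos.and k2).mono 0 ?_
  rintro J - F A ⟨hA, k3⟩ B hBA hB 𝒵 𝒱 z zv hu hv hn gu gv gn D C w X Lu Lv Ln mm M wv e ℓu Lu' su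
    ℓv Lv' sv ℓn Ln' sn H i hi G hG
  have hB0 : 0 < Pe F.p B := lt_of_lt_of_le (by positivity) hB
  have hBG : κ₀ * ϖ * Pe F.p A ≤ Pe F.p (fun ω => B ω ∧ G ω) := by
    rw [Pool.JPR.Pe_cnd, le_div_iff₀ hB0] at hG
    calc κ₀ * ϖ * Pe F.p A = ϖ * (κ₀ * Pe F.p A) := by ring
      _ ≤ ϖ * Pe F.p B := mul_le_mul_of_nonneg_left hB hϖ.le
      _ ≤ _ := hG
  obtain ⟨⟨⟨h1, h2⟩, h3⟩, h4⟩ := k3 (fun ω => B ω ∧ G ω) (fun ω h => hBA ω h.1) hBG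
  rw [Pool.MM97.cond_andM F.p hB0.ne']
  have hq := isLaw_cond F.isLaw h1
  have hqB : ∀ ω, 0 < Pool.Agent.H49.Ent.cond F.p (fun ω => B ω ∧ G ω) True ω → B ω :=
    fun ω h => (Pool.STAT.cond_supp h).1
  obtain ⟨f, g', hf⟩ := H.zvl
  have hEx : E * Real.log 2 * J ≤ CH (Pool.Agent.H49.Ent.cond F.p (fun ω => B ω ∧ G ω) True)
      (fun ω (i : Fin 3) => F.X J ω (![y, u, v] i)) (fun ω => (zv ω, F.W ω)) := by
    have h5 := (h4.win H.wA1 H.wA2) 𝒱 f g' (fun ω hω => by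
      rw [← (hf ω hω.1).1, ← (hf ω hω.1).2])
    refine h5.trans (CH_mono_cond hq.nonneg fun ω ω' a b e1 => ?_)
    have e2 := Prod.mk.inj e1
    refine Prod.ext ?_ e2.2
    change zv ω = zv ω'
    rw [(hf ω (hqB ω a)).2, (hf ω' (hqB ω' b)).2]
    exact e2.1
  have h6 := (abs_le.1 (h3 (w + Ln + M) H.nJ)).2
  have h7 := (abs_le.1 (h3 (w + Ln + i) (le_trans (by omega) H.nJ))).1
  have h8 := nf_law hq hqB hy hut hvt hc H hi hEx (h2 (w + X) H.wX)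
    (h := η / 4 * J) (r₁ := r (((w + Ln + M : ℕ) : ℝ) / J) * Real.log 2 * J)
    (r₀ := r (((w + Ln + i : ℕ) : ℝ) / J) * Real.log 2 * J) (by linarith) (by linarith)
  refine h8.trans (le_of_eq ?_)
  ring

/-- In four coordinates. -/
theorem cov4 {y u v t : Fin 4} (h1 : y ≠ u) (h2 : y ≠ v) (h3 : y ≠ t) (h4 : u ≠ v) (h5 : u ≠ t)
    (h6 : v ≠ t) (j : Fin 4) (hj : j ≠ t) : j = y ∨ j = u ∨ j = v := by
  have e1 := y.2
  have e2 := u.2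
  have e3 := v.2
  have e4 := t.2
  have e5 := j.2
  rw [Ne, Fin.ext_iff] at h1 h2 h3 h4 h5 h6 hj
  rw [Fin.ext_iff, Fin.ext_iff, Fin.ext_iff]
  omega

end Pool.ONE55
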