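import Pool.Agent.H55.ONE.Nfc
import Pool.Agent.H62.ONE1.Nfu

/-!
# The row of the target over the context, in a class: the literal form

`nfb_cls`: `NfB` for all large events of the members of a class.
-/

set_option autoImplicit false

namespace Pool.ONE55

open Finset Real
open Pool.Agent.H49.Ent Pool.Agent.H32.Dense Pool.STK Pool.KA Pool.KSAT Pool.K2S Pool.PB Pool.GEN
open Pool.LPX Pool.ONE17 Pool.ONE72 Pool.S6C
open Pool.ALL (RateOf)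
open Pool.STAT (ExW)

/-- **The row over the context**, for all large events. -/
theorem nfb_cls {S : PCl 4} {C₀ : ℝ} (htm : TmC S C₀) {y u v t : Fin 4} (hyu : y ≠ u)
    (hyv : y ≠ v) (hyt : y ≠ t) (huv : u ≠ v) (hut : u ≠ t) (hvt : v ≠ t) {r : ℝ → ℝ}
    (hr : RateOf S t r) {av E κ₀ ϖ η : ℝ} (hav : av ≤ 1) (hκ₀ : 0 < κ₀) (hϖ : 0 < ϖ) (hη : 0 < η)
    (hE : Bas S (fun J F A => ExW F A ![y, u, v] ⌊av * J⌋₊ (E * Real.log 2 * J))) :
    Bas S (fun J F A => ∀ B : F.Ω → Prop, Sub B A → κ₀ * Pe F.p A ≤ Pe F.p B →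
      Pool.ONE62.NfB F B y u v t r av E ϖ η) := by
  refine (nf_cls htm hyt hut hvt (cov4 hyu hyv hyt huv hut hvt) hr hκ₀ hϖ hη hE).mono 0 ?_
  intro J _ F A h B hBA hB
  have hJ : ⌊av * (J : ℝ)⌋₊ ≤ J := by
    refine Nat.floor_le_of_le ?_
    have hJ0 : (0 : ℝ) ≤ J := Nat.cast_nonneg J
    nlinarith
  intro 𝒵 𝒱 z zv hu hv hn gu gv gn D C w X Lu Lv Ln mm M wv e ℓu Lu' su ℓv Lv' sv ℓn Ln' sn
    a1 a2 a3 a4 a5 a6 a7 a8 a9 a10 a11 a12 a13 a14 a15 a16 a17 a18 a19 a20 a21 a22 a23 a24 a25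
    a26 a27 a28 a29 i hi G hG
  have k := h B hBA hB 𝒵 𝒱 z zv hu hv hn gu gv gn D C w X Lu Lv Ln mm M wv e ℓu Lu' su
    ℓv Lv' sv ℓn Ln' sn ⟨a1, a2, a3, a4, a5, a6, a7, a8, a9, a10, a11, a12, a13, a14, a15, a16, hJ,
    a17, a18, a19, a20, a21, a22, a23, a24, a27, a25, a28, a26, a29⟩ i hi G hG
  refine k.trans (le_of_eq ?_)
  push_cast
  ring

end Pool.ONE55
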